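import Pool.Agent.N332.GK.Defs

set_option autoImplicit false

/-! GK/P4: consequence of the pointwise inequality. -/

namespace Pool.Agent.N434.GKP4

open Finset Pool.Agent.N356.SP Pool.Agent.N332.GK

theorem ck_pos {k : ℕ} (hk : 6 ≤ k) : 0 < ck k := by
  have h1 : (6:ℝ) ≤ k := by exact_mod_cast hk
  have h2 : (0:ℝ) < ((2 * k).choose k : ℝ) := by
    exact_mod_cast Nat.choose_pos (by omega)
  have h3 : (0:ℝ) < 2 * (k:ℝ) - 1 := by linarith
  unfold ck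
  positivity

theorem ck_pow {k : ℕ} (hk : 6 ≤ k) :
    ck k ^ k = (2 * (2 * (k : ℝ) - 1)) ^ k / ((2 * k).choose k : ℝ) := by
  have h1 : (6:ℝ) ≤ k := by exact_mod_cast hk
  have h3 : (0:ℝ) < 2 * (k:ℝ) - 1 := by linarith
  have h4 : (k:ℝ) ≠ 0 := by positivity
  unfold ck
  rw [← Real.rpow_natCast, ← Real.rpow_mul (by positivity), one_div_mul_cancel h4, Real.rpow_one]

theorem lam_mul {k : ℕ} (hk : 6 ≤ k) : (ck k / (2 * (k : ℝ) - 1)) ^ k * lam k = 1 := by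
  have h1 : (6:ℝ) ≤ k := by exact_mod_cast hk
  have h2 : ((2 * k).choose k : ℝ) ≠ 0 := by
    exact_mod_cast (Nat.choose_pos (by omega)).ne'
  have h3 : (2 * (k:ℝ) - 1) ≠ 0 := by
    have : (0:ℝ) < 2 * (k:ℝ) - 1 := by linarith
    exact this.ne'
  rw [div_pow, ck_pow hk, mul_pow, lam]
  field_simp

/-- P4: its consequence (`k = i + 6`) -/
theorem pwk (HG : ∀ {μ : ℝ}, 0 < μ → ∀ (w : ℝ) (i : ℕ),
      GA μ w i = lam (i + 4) * μ ^ (i + 4) * gg (w / μ ^ 2) i)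
    (HK : ∀ i : ℕ, ((i : ℝ) + 6) ≤ Kb (1 / ((i : ℝ) + 6)) * hh (i + 2)) (HP : ∀ i, 0 < hh i)
    (HW : ∀ {x w : ℝ}, 1 ≤ x → ∀ i : ℕ, ((i : ℝ) + 4) * x ^ 2 * (x - 1) ≤ hh i * w →
      x ^ (i + 4) ≤ gg w i)
    {k : ℕ} (hk : 6 ≤ k) {μ w ν : ℝ} (hμ : 0 ≤ μ) (hw : 0 ≤ w) (hν : 0 ≤ ν)
    (h : ν ^ k = GA μ w (k - 4)) :
    (2 * (k : ℝ) - 1) / ck k * μ ≤ ν ∧
      μ * w ≤ Kb (1 / (k : ℝ)) * (ck k / (2 * (k : ℝ) - 1)) ^ 3 * ν ^ 2 *
        (ν - (2 * (k : ℝ) - 1) / ck k * μ) := by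
  have h1 : (6:ℝ) ≤ k := by exact_mod_cast hk
  have h3 : (0:ℝ) < 2 * (k:ℝ) - 1 := by linarith
  have hck := ck_pos hk
  have hKb : 0 < Kb (1 / (k : ℝ)) := by unfold Kb; positivity
  set a : ℝ := ck k / (2 * (k : ℝ) - 1) with ha
  have ha0 : 0 < a := by positivity
  have hinv : (2 * (k : ℝ) - 1) / ck k = a⁻¹ := by rw [ha, inv_div]
  have hlam : a ^ k * lam k = 1 := lam_mul hk
  rw [hinv]
  rcases hμ.eq_or_lt with hμ0 | hμ0
  · subst hμ0
    rw [mul_zero, zero_mul, sub_zero]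
    exact ⟨hν, by positivity⟩
  set W : ℝ := w / μ ^ 2 with hW
  have hW0 : 0 ≤ W := by positivity
  set x : ℝ := a * ν / μ with hx
  have hx0 : 0 ≤ x := by positivity
  have hk4 : k - 4 + 4 = k := by omega
  have hxk : x ^ k = gg W (k - 4) := by
    have e := HG hμ0 w (k - 4)
    rw [hk4] at e
    rw [hx, div_pow, mul_pow, h, e]
    have : μ ^ k ≠ 0 := by positivity
    rw [div_eq_iff this]
    linear_combination (μ ^ k * gg (w / μ ^ 2) (k - 4)) * hlam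
  have hx1 : 1 ≤ x := by
    have e := HW (x := 1) (w := W) le_rfl (k - 4) (by
      rw [sub_self, mul_zero]
      exact mul_nonneg (HP _).le hW0)
    rw [one_pow, ← hxk] at e
    by_contra hcon
    push Not at hcon
    have := pow_lt_one₀ hx0 hcon (by omega : k ≠ 0)
    linarith
  have hfirst : a⁻¹ * μ ≤ ν := by
    rw [hx, le_div_iff₀ hμ0, one_mul] at hx1
    rw [inv_mul_le_iff₀ ha0]
    exact hx1
  refine ⟨hfirst, ?_⟩
  have hkc : ((k - 4 : ℕ) : ℝ) + 4 = k := by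
    have := congrArg (Nat.cast (R := ℝ)) hk4
    push_cast at this
    exact this
  have hsec : W ≤ Kb (1 / (k : ℝ)) * (x ^ 2 * (x - 1)) := by
    by_contra hcon
    push Not at hcon
    have e1 := HK (k - 6)
    have e2 : ((k - 6 : ℕ) : ℝ) + 6 = k := by
      have := congrArg (Nat.cast (R := ℝ)) (by omega : k - 6 + 6 = k)
      push_cast at this
      exact this
    rw [e2, show k - 6 + 2 = k - 4 by omega] at e1
    have hhp := HP (k - 4)
    have e3 : (k:ℝ) * x ^ 2 * (x - 1) < hh (k - 4) * W := by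
      have h5 : 0 ≤ x ^ 2 * (x - 1) := mul_nonneg (sq_nonneg _) (by linarith)
      calc (k:ℝ) * x ^ 2 * (x - 1) = k * (x ^ 2 * (x - 1)) := by ring
        _ ≤ (Kb (1 / (k:ℝ)) * hh (k - 4)) * (x ^ 2 * (x - 1)) :=
            mul_le_mul_of_nonneg_right e1 h5
        _ = hh (k - 4) * (Kb (1 / (k:ℝ)) * (x ^ 2 * (x - 1))) := by ring
        _ < hh (k - 4) * W := mul_lt_mul_of_pos_left hcon hhp
    have hc : ContinuousAt (fun z : ℝ => (k:ℝ) * z ^ 2 * (z - 1)) x := by fun_prop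
    have hev := hc.eventually_lt_const e3
    obtain ⟨z, hz1, hz2⟩ : ∃ z, x < z ∧ (k:ℝ) * z ^ 2 * (z - 1) < hh (k - 4) * W := by
      have h6 : ∀ᶠ z in nhdsWithin x (Set.Ioi x), (k:ℝ) * z ^ 2 * (z - 1) < hh (k - 4) * W :=
        hev.filter_mono nhdsWithin_le_nhds
      have h7 : ∀ᶠ z in nhdsWithin x (Set.Ioi x), x < z := self_mem_nhdsWithin
      exact (h7.and h6).exists
    have e4 := HW (x := z) (w := W) (by linarith) (k - 4) (by rw [hkc]; exact hz2.le)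
    rw [hk4, ← hxk] at e4
    have := pow_lt_pow_left₀ hz1 hx0 (by omega : k ≠ 0)
    linarith
  have e5 : μ * w = μ ^ 3 * W := by
    rw [hW]
    field_simp
  have e6 : Kb (1 / (k : ℝ)) * a ^ 3 * ν ^ 2 * (ν - a⁻¹ * μ) =
      μ ^ 3 * (Kb (1 / (k : ℝ)) * (x ^ 2 * (x - 1))) := by
    rw [hx]
    field_simp
  rw [e5, e6]
  exact mul_le_mul_of_nonneg_left hsec (by positivity)

end Pool.Agent.N434.GKP4
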