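import Pool.Agent.N869.GK.D.Stm
import Pool.Agent.W22.RK.Loc

/-! Project GK (helper869), the classes at a prime dividing the twisting number (helper434). -/

set_option autoImplicit false

namespace Pool.Agent.N434.GK

open Pool.Agent.TH841.SH (LocC)
open Pool.Agent.N869.GK.D

section

variable {p : ℕ} [hp : Fact p.Prime]

lemma nsq {a : ℚ_[p]} {k : ℕ} (hk : ¬ 2 ∣ k) (h : IsSquare a) (h1 : ‖a‖ = ((p : ℝ)⁻¹) ^ k) : False := by
  obtain ⟨z, rfl⟩ := h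
  have hp0 : (0 : ℝ) < p := by exact_mod_cast hp.out.pos
  have hp1 : (1 : ℝ) < p := by exact_mod_cast hp.out.one_lt
  have hz : z ≠ 0 := by
    rintro rfl
    rw [mul_zero, norm_zero] at h1
    have : (0 : ℝ) < ((p : ℝ)⁻¹) ^ k := by positivity
    linarith
  rw [norm_mul, Padic.norm_eq_zpow_neg_valuation hz, ← zpow_add₀ hp0.ne', inv_pow, ← zpow_natCast, ← zpow_neg] at h1
  have h2 := zpow_right_injective₀ hp0 hp1.ne' h1
  omega

lemma n1 {a : ℤ} (h : ¬ (p : ℤ) ∣ a) : ‖(a : ℚ_[p])‖ = 1 := by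
  have h1 : ¬ ‖(a : ℚ_[p])‖ < 1 := by
    rw [Padic.norm_intCast_lt_one_iff]
    exact h
  exact le_antisymm (Padic.norm_int_le_one a) (not_lt.1 h1)

lemma np {a : ℤ} (h1 : (p : ℤ) ∣ a) (h2 : ¬ (p : ℤ) ^ 2 ∣ a) : ‖(a : ℚ_[p])‖ = (p : ℝ)⁻¹ := by
  obtain ⟨b, rfl⟩ := h1
  have hb : ¬ (p : ℤ) ∣ b := by
    rintro ⟨c, rfl⟩
    exact h2 ⟨c, by ring⟩
  push_cast
  rw [norm_mul, n1 hb, mul_one, Padic.norm_p]

lemma sqf {m : ℤ} (hm : Squarefree m) : ¬ (p : ℤ) ^ 2 ∣ m := by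
  intro h
  rw [pow_two] at h
  have h1 := hm _ h
  rw [Int.isUnit_iff] at h1
  have := hp.out.two_le
  omega

/-- a unit plus a nonunit -/
lemma usq (hp2 : p ≠ 2) {c : ℤ} {t : ℚ_[p]} (hc : ¬ (p : ℤ) ∣ c) (ht : ‖t‖ < 1) :
    ∃ s : ℚ_[p], s ≠ 0 ∧ (c : ℚ_[p]) + t = c * (s * s) := by
  have hc1 := n1 hc
  have hc0 : (c : ℚ_[p]) ≠ 0 := by
    intro h
    rw [h, norm_zero] at hc1
    exact zero_ne_one hc1
  have hr : ‖t / c‖ < 1 := by
    rw [norm_div, hc1, div_one]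
    exact ht
  obtain ⟨s, hs⟩ := Pool.Agent.W22.RK.isSquare_one_add hp2 (t / c) hr
  refine ⟨s, ?_, ?_⟩
  · rintro rfl
    rw [mul_zero] at hs
    have h1 : t / c = -1 := by linear_combination hs
    rw [h1, norm_neg, norm_one] at hr
    exact lt_irrefl _ hr
  · rw [← hs]
    field_simp

/-- the class of a point, outer case -/
lemma cls_out {a s d' c : ℚ_[p]} {m : ℤ} (hs : s ≠ 0) (ha : a = d' * (c * (s * s))) (h : IsSquare (a * m)) :
    IsSquare (m * (d' * c)) := by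
  obtain ⟨w, hw⟩ := h
  refine ⟨w / s, ?_⟩
  rw [div_mul_div_comm, ← hw, ha]
  field_simp

/-- the class of a point, inner case -/
lemma cls_in {a a2 a3 s2 s3 d c2 c3 y : ℚ_[p]} {m : ℤ} (hd : d ≠ 0) (hc2 : c2 ≠ 0) (hc3 : c3 ≠ 0)
    (hs2 : s2 ≠ 0) (hs3 : s3 ≠ 0) (hy : y ≠ 0) (h2 : a2 = d * (c2 * (s2 * s2))) (h3 : a3 = d * (c3 * (s3 * s3)))
    (hyy : y ^ 2 = a * a2 * a3) (h : IsSquare (a * m)) : IsSquare (m * (c2 * c3)) := by
  obtain ⟨w, hw⟩ := h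
  refine ⟨w * d * c2 * c3 * s2 * s3 / y, ?_⟩
  rw [div_mul_div_comm, ← pow_two y, hyy, h2, h3]
  have ha : a ≠ 0 := by
    rintro rfl
    rw [zero_mul, zero_mul] at hyy
    exact hy (pow_eq_zero_iff (by norm_num) |>.1 hyy)
  have e : w * d * c2 * c3 * s2 * s3 * (w * d * c2 * c3 * s2 * s3) =
      (w * w) * (d * c2 * c3 * s2 * s3 * (d * c2 * c3 * s2 * s3)) := by ring
  rw [e, ← hw]
  field_simp

end

theorem t_RAM : S_RAM := by
  intro e1 e2 e3 d p hp hp2 hne hd hd2 m n hm hn hL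
  obtain ⟨x, y, hy, hyy, h1, h2⟩ := hL
  have hp0 : (0 : ℝ) < p := by exact_mod_cast hp.out.pos
  have hp1 : (1 : ℝ) < p := by exact_mod_cast hp.out.one_lt
  have hpi : (p : ℝ)⁻¹ < 1 := inv_lt_one_of_one_lt₀ hp1
  have h12 : ¬ (p : ℤ) ∣ (e1 - e2) := fun h => hne (Dvd.dvd.mul_right (Dvd.dvd.mul_right h _) _)
  have h13 : ¬ (p : ℤ) ∣ (e1 - e3) := fun h => hne (Dvd.dvd.mul_right (Dvd.dvd.mul_left h _) _)
  have h23 : ¬ (p : ℤ) ∣ (e2 - e3) := fun h => hne (Dvd.dvd.mul_left h _)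
  have h21 : ¬ (p : ℤ) ∣ (e2 - e1) := fun h => h12 (by rw [← neg_sub]; exact (dvd_neg).2 h)
  have h31 : ¬ (p : ℤ) ∣ (e3 - e1) := fun h => h13 (by rw [← neg_sub]; exact (dvd_neg).2 h)
  have h32 : ¬ (p : ℤ) ∣ (e3 - e2) := fun h => h23 (by rw [← neg_sub]; exact (dvd_neg).2 h)
  have hnd : ‖(d : ℚ_[p])‖ = (p : ℝ)⁻¹ := np hd hd2
  have hd0 : (d : ℚ_[p]) ≠ 0 := by
    intro h
    rw [h, norm_zero] at hnd
    have : 0 < (p : ℝ)⁻¹ := by positivity
    linarith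
  have hc0 : ∀ c : ℤ, ¬ (p : ℤ) ∣ c → (c : ℚ_[p]) ≠ 0 := by
    intro c hc h
    have := n1 (p := p) hc
    rw [h, norm_zero] at this
    exact zero_ne_one this
  have hm2 : ¬ (p : ℤ) ^ 2 ∣ m := sqf hm
  have hn2 : ¬ (p : ℤ) ^ 2 ∣ n := sqf hn
  have hm0 : m ≠ 0 := hm.ne_zero
  have hn0 : n ≠ 0 := hn.ne_zero
  -- parity
  have even_of : ∀ (k : ℤ) (u : ℚ_[p]), ¬ (p : ℤ) ^ 2 ∣ k → ‖u‖ = 1 → IsSquare ((k : ℚ_[p]) * u) → ¬ (p : ℤ) ∣ k := by
    intro k u hk hu hsq hdv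
    refine nsq (k := 1) (by norm_num) hsq ?_
    rw [norm_mul, hu, np hdv hk, mul_one, pow_one]
  have odd_of : ∀ (k : ℤ) (u : ℚ_[p]), ‖u‖ = (p : ℝ)⁻¹ → IsSquare ((k : ℚ_[p]) * u) → (p : ℤ) ∣ k := by
    intro k u hu hsq
    by_contra hdv
    refine nsq (k := 1) (by norm_num) hsq ?_
    rw [norm_mul, hu, n1 hdv, one_mul, pow_one]
  by_cases hx : ‖x‖ < 1
  · -- the nontrivial case
    have hxd : ‖x‖ ≤ (p : ℝ)⁻¹ := by
      by_cases hx0 : x = 0
      · rw [hx0, norm_zero]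
        positivity
      · rw [Padic.norm_eq_zpow_neg_valuation hx0] at hx ⊢
        have h3 : -x.valuation < 0 := by
          by_contra h4
          exact absurd hx (not_lt.2 (one_le_zpow₀ hp1.le (not_lt.1 h4)))
        rw [← zpow_neg_one]
        exact zpow_le_zpow_right₀ hp1.le (by omega)
    obtain ⟨X, hX⟩ : ∃ X : ℚ_[p], x = d * X := ⟨x / d, by field_simp⟩
    have hX1 : ‖X‖ ≤ 1 := by
      rw [hX, norm_mul, hnd] at hxd
      have : 0 < (p : ℝ)⁻¹ := by positivity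
      by_contra h3
      have h4 : (p : ℝ)⁻¹ * 1 < (p : ℝ)⁻¹ * ‖X‖ := mul_lt_mul_of_pos_left (not_le.1 h3) this
      linarith
    have ha : ∀ e : ℤ, x - ((d * e : ℤ) : ℚ_[p]) = d * (X - e) := by
      intro e
      rw [hX]
      push_cast
      ring
    rw [ha, ha, ha] at hyy
    rw [ha] at h1 h2
    have hle : ∀ e : ℤ, ‖X - e‖ ≤ 1 := by
      intro e
      rw [sub_eq_add_neg]
      refine (Padic.nonarchimedean X (-(e : ℚ_[p]))).trans (max_le hX1 ?_)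
      rw [norm_neg]
      exact Padic.norm_int_le_one e
    have hdif : ∀ (e e' : ℤ), ¬ (p : ℤ) ∣ (e - e') → ‖X - e‖ < 1 →
        ∃ s : ℚ_[p], s ≠ 0 ∧ (d : ℚ_[p]) * (X - e') = d * (((e - e' : ℤ) : ℚ_[p]) * (s * s)) := by
      intro e e' h3 h4
      obtain ⟨s, hs, hs2⟩ := usq hp2 h3 h4
      refine ⟨s, hs, ?_⟩
      rw [← hs2]
      push_cast
      ring
    have hcase : ‖X - e1‖ < 1 ∨ ‖X - e2‖ < 1 ∨ ‖X - e3‖ < 1 := by
      by_contra hcon
      push Not at hcon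
      obtain ⟨c1, c2, c3⟩ := hcon
      have f1 := le_antisymm (hle e1) c1
      have f2 := le_antisymm (hle e2) c2
      have f3 := le_antisymm (hle e3) c3
      refine nsq (k := 3) (by norm_num) (⟨y, pow_two y⟩ : IsSquare (y ^ 2)) ?_
      rw [hyy]
      simp only [norm_mul, f1, f2, f3, hnd]
      ring
    rcases hcase with h3 | h3 | h3
    · obtain ⟨s2, hs2, g2⟩ := hdif e1 e2 h12 h3
      obtain ⟨s3, hs3, g3⟩ := hdif e1 e3 h13 h3
      have k1 := cls_in hd0 (hc0 _ h12) (hc0 _ h13) hs2 hs3 hy g2 g3 hyy h1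
      have k2 := cls_out hs2 g2 h2
      have m1 : ¬ (p : ℤ) ∣ m := even_of m _ hm2 (by rw [norm_mul, n1 h12, n1 h13, mul_one]) k1
      have m2 : (p : ℤ) ∣ n := odd_of n _ (by rw [norm_mul, n1 h12, hnd, mul_one]) k2
      rw [if_neg m1, if_pos m2, if_neg m1, if_pos m2]
      constructor
      · have : ((m * 1 * ((e1 - e2) * (e1 - e3)) : ℤ) : ℚ_[p]) =
            m * (((e1 - e2 : ℤ) : ℚ_[p]) * ((e1 - e3 : ℤ) : ℚ_[p])) := by push_cast; ring
        rw [this]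
        exact k1
      · have : ((n * 1 * (d * (e1 - e2)) : ℤ) : ℚ_[p]) = n * (d * ((e1 - e2 : ℤ) : ℚ_[p])) := by push_cast; ring
        rw [this]
        exact k2
    · obtain ⟨s1, hs1, g1⟩ := hdif e2 e1 h21 h3
      obtain ⟨s3, hs3, g3⟩ := hdif e2 e3 h23 h3
      have hyy' : y ^ 2 = d * (X - e2) * (d * (X - e1)) * (d * (X - e3)) := by rw [hyy]; ring
      have k1 := cls_out hs1 g1 h1
      have k2 := cls_in hd0 (hc0 _ h21) (hc0 _ h23) hs1 hs3 hy g1 g3 hyy' h2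
      have m1 : (p : ℤ) ∣ m := odd_of m _ (by rw [norm_mul, n1 h21, hnd, mul_one]) k1
      have m2 : ¬ (p : ℤ) ∣ n := even_of n _ hn2 (by rw [norm_mul, n1 h21, n1 h23, mul_one]) k2
      rw [if_pos m1, if_neg m2, if_pos m1, if_neg m2]
      constructor
      · have : ((m * (d * (e2 - e1)) * 1 : ℤ) : ℚ_[p]) = m * (d * ((e2 - e1 : ℤ) : ℚ_[p])) := by push_cast; ring
        rw [this]
        exact k1
      · have : ((n * ((e2 - e1) * (e2 - e3)) * 1 : ℤ) : ℚ_[p]) =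
            n * (((e2 - e1 : ℤ) : ℚ_[p]) * ((e2 - e3 : ℤ) : ℚ_[p])) := by push_cast; ring
        rw [this]
        exact k2
    · obtain ⟨s1, hs1, g1⟩ := hdif e3 e1 h31 h3
      obtain ⟨s2, hs2, g2⟩ := hdif e3 e2 h32 h3
      have k1 := cls_out hs1 g1 h1
      have k2 := cls_out hs2 g2 h2
      have m1 : (p : ℤ) ∣ m := odd_of m _ (by rw [norm_mul, n1 h31, hnd, mul_one]) k1
      have m2 : (p : ℤ) ∣ n := odd_of n _ (by rw [norm_mul, n1 h32, hnd, mul_one]) k2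
      rw [if_pos m1, if_pos m2, if_pos m1, if_pos m2]
      obtain ⟨w1, hw1⟩ := k1
      obtain ⟨w2, hw2⟩ := k2
      push_cast at hw1 hw2
      constructor
      · refine ⟨w1 * (e1 - e2), ?_⟩
        push_cast
        linear_combination ((e1 : ℚ_[p]) - e2) ^ 2 * hw1
      · refine ⟨w2 * (e1 - e2), ?_⟩
        push_cast
        linear_combination ((e1 : ℚ_[p]) - e2) ^ 2 * hw2
  · -- the trivial case
    have hx1 : 1 ≤ ‖x‖ := not_lt.1 hx
    have hx0 : x ≠ 0 := by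
      rintro rfl
      rw [norm_zero] at hx1
      linarith
    have hsq : ∀ e : ℤ, ∃ s : ℚ_[p], s ≠ 0 ∧ x - ((d * e : ℤ) : ℚ_[p]) = x * (s * s) := by
      intro e
      have hr : ‖-((d * e : ℤ) : ℚ_[p]) / x‖ < 1 := by
        rw [norm_div, norm_neg, div_lt_one (by linarith)]
        push_cast
        rw [norm_mul, hnd]
        have h3 := Padic.norm_int_le_one (p := p) e
        have h4 : (p : ℝ)⁻¹ * ‖(e : ℚ_[p])‖ ≤ (p : ℝ)⁻¹ * 1 := mul_le_mul_of_nonneg_left h3 (by positivity)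
        linarith
      obtain ⟨s, hs⟩ := Pool.Agent.W22.RK.isSquare_one_add hp2 _ hr
      refine ⟨s, ?_, ?_⟩
      · rintro rfl
        rw [mul_zero] at hs
        have h1 : -((d * e : ℤ) : ℚ_[p]) / x = -1 := by linear_combination hs
        rw [h1, norm_neg, norm_one] at hr
        exact lt_irrefl _ hr
      · rw [← hs]
        field_simp
        ring
    obtain ⟨s1, hs1, g1⟩ := hsq e1
    obtain ⟨s2, hs2, g2⟩ := hsq e2
    obtain ⟨s3, hs3, g3⟩ := hsq e3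
    have hxs : IsSquare x := by
      refine ⟨y / (x * s1 * s2 * s3), ?_⟩
      rw [div_mul_div_comm, ← pow_two y, hyy, g1, g2, g3]
      field_simp
    obtain ⟨r, hr⟩ := hxs
    have hr0 : r ≠ 0 := by
      rintro rfl
      rw [mul_zero] at hr
      exact hx0 hr
    have k1 : IsSquare (m : ℚ_[p]) := by
      obtain ⟨w, hw⟩ := h1
      refine ⟨w / (r * s1), ?_⟩
      rw [div_mul_div_comm, ← hw, g1, hr]
      field_simp
    have k2 : IsSquare (n : ℚ_[p]) := by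
      obtain ⟨w, hw⟩ := h2
      refine ⟨w / (r * s2), ?_⟩
      rw [div_mul_div_comm, ← hw, g2, hr]
      field_simp
    have m1 : ¬ (p : ℤ) ∣ m := even_of m 1 hm2 norm_one (by rw [mul_one]; exact k1)
    have m2 : ¬ (p : ℤ) ∣ n := even_of n 1 hn2 norm_one (by rw [mul_one]; exact k2)
    rw [if_neg m1, if_neg m2, if_neg m1, if_neg m2, mul_one, mul_one, mul_one, mul_one]
    exact ⟨k1, k2⟩

end Pool.Agent.N434.GK
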